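import Pool.Agent.Q227.MC.Graph
import Pool.Agent.NPC.Sat2
import Pool.Agent.Q227.TF.Red

/-!
# 3-satisfiability as a system of constraints
-/

set_option autoImplicit false

namespace Pool.Agent.Q227.MC

open Pool.Agent.NPC Pool.Agent.Q227 Pool.Agent.Q227.TF

/-- The cluster of a literal. -/
def lc (l : Lit ℕ) : ℕ := 2 + 2 * l.2 + (if l.1 = true then 0 else 1)

/-- The number of variables. -/
def nv (φ : F3) : ℕ := 3 * φ.length

/-- The number of main clusters. -/
def nn (φ : F3) : ℕ := 2 + 2 * (3 * φ.length) + φ.length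

/-- The constraints. -/
def cons (φ : F3) : List Con :=
  (List.range (nn φ)).map (fun z => (z, 0, 1)) ++
    (List.range (3 * φ.length)).flatMap (fun x =>
      [(0, 2 + 2 * x, 3 + 2 * x), (1, 2 + 2 * x, 3 + 2 * x)]) ++
    φ.zipIdx.flatMap (fun q =>
      [(0, lc q.1.1, 2 + 2 * (3 * φ.length) + q.2),
        (2 + 2 * (3 * φ.length) + q.2, lc q.1.2.1, lc q.1.2.2)])

theorem lc_lt {l : Lit ℕ} {N : ℕ} (h : l.2 < N) : lc l < 2 + 2 * N := by
  unfold lc
  split_ifs <;> omega

theorem cons_bdd {φ : F3} (hφ : Bounded3 φ) : Bdd (nn φ) (cons φ) := by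
  intro q hq
  unfold cons at hq
  rw [List.mem_append, List.mem_append, List.mem_map, List.mem_flatMap, List.mem_flatMap] at hq
  unfold nn at hq ⊢
  rcases hq with (⟨z, hz, rfl⟩ | ⟨x, hx, hq⟩) | ⟨⟨c, i⟩, hc, hq⟩
  · rw [List.mem_range] at hz
    simp only
    omega
  · rw [List.mem_range] at hx
    simp only [List.mem_cons, List.not_mem_nil, or_false] at hq
    rcases hq with rfl | rfl <;> simp only <;> omega
  · rw [List.mem_zipIdx_iff_getElem?] at hc
    obtain ⟨h1, h2⟩ := List.getElem?_eq_some_iff.1 hc
    have h3 := hφ c (List.mem_of_getElem? hc)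
    have k1 := lc_lt h3.1
    have k2 := lc_lt h3.2.1
    have k3 := lc_lt h3.2.2
    simp only [List.mem_cons, List.not_mem_nil, or_false] at hq
    simp only at h1
    rcases hq with rfl | rfl <;> simp only <;> omega

theorem sol_iff {φ : F3} (hφ : Bounded3 φ) : SAT3 φ ↔ Sol (nn φ) (cons φ) := by
  constructor
  · rintro ⟨τ, hτ⟩
    let g : ℕ → Bool := fun c => if c = 0 then true else if c = 1 then false else
      if c < 2 + 2 * (3 * φ.length) then (if c % 2 = 0 then τ ((c - 2) / 2) else !τ ((c - 2) / 2))
      else match φ[c - (2 + 2 * (3 * φ.length))]? with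
        | none => true
        | some cl => if τ cl.1.2 = cl.1.1 then decide (τ cl.2.1.2 = cl.2.1.1) else true
    have g0 : g 0 = true := rfl
    have g1 : g 1 = false := rfl
    have gx : ∀ x < 3 * φ.length, g (2 + 2 * x) = τ x := by
      intro x hx
      show (if _ then _ else _) = _
      rw [if_neg (by omega), if_neg (by omega), if_pos (by omega), if_pos (by omega),
        show (2 + 2 * x - 2) / 2 = x by omega]
    have gx' : ∀ x < 3 * φ.length, g (3 + 2 * x) = !τ x := by
      intro x hx
      show (if _ then _ else _) = _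
      rw [if_neg (by omega), if_neg (by omega), if_pos (by omega), if_neg (by omega),
        show (3 + 2 * x - 2) / 2 = x by omega]
    have gl : ∀ l : Lit ℕ, l.2 < 3 * φ.length → g (lc l) = decide (τ l.2 = l.1) := by
      rintro ⟨b, x⟩ hx
      cases b
      · have : lc (false, x) = 3 + 2 * x := by simp only [lc]; simp; omega
        rw [this, gx' x hx]
        simp only
        cases τ x <;> rfl
      · have : lc (true, x) = 2 + 2 * x := by simp only [lc]; simp
        rw [this, gx x hx]
        simp only
        cases τ x <;> rfl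
    have gd : ∀ i cl, φ[i]? = some cl → g (2 + 2 * (3 * φ.length) + i) =
        if τ cl.1.2 = cl.1.1 then decide (τ cl.2.1.2 = cl.2.1.1) else true := by
      intro i cl hi
      show (if _ then _ else _) = _
      rw [if_neg (by omega), if_neg (by omega), if_neg (by omega),
        show 2 + 2 * (3 * φ.length) + i - (2 + 2 * (3 * φ.length)) = i by omega, hi]
    refine ⟨g, ⟨0, by unfold nn; omega, 1, by unfold nn; omega, by rw [g0, g1]; simp⟩, ?_⟩
    intro q hq
    unfold cons at hq
    rw [List.mem_append, List.mem_append, List.mem_map, List.mem_flatMap, List.mem_flatMap] at hq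
    rcases hq with (⟨z, hz, rfl⟩ | ⟨x, hx, hq⟩) | ⟨⟨c, i⟩, hc, hq⟩
    · simp only [g0, g1]
      cases g z <;> simp
    · rw [List.mem_range] at hx
      simp only [List.mem_cons, List.not_mem_nil, or_false] at hq
      rcases hq with rfl | rfl
      · simp only [g0, gx x hx, gx' x hx]
        cases τ x <;> simp
      · simp only [g1, gx x hx, gx' x hx]
        cases τ x <;> simp
    · rw [List.mem_zipIdx_iff_getElem?] at hc
      simp only at hc
      have hmem := List.mem_of_getElem? hc
      have h3 := hφ c hmem
      have h4 := hτ c hmem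
      simp only [List.mem_cons, List.not_mem_nil, or_false] at hq
      rcases hq with rfl | rfl
      · simp only [g0, gl _ h3.1, gd i c hc]
        by_cases h : τ c.1.2 = c.1.1
        · left; simp [h]
        · right; rw [if_neg h]
      · simp only [gl _ h3.2.1, gl _ h3.2.2, gd i c hc]
        by_cases h : τ c.1.2 = c.1.1
        · left; rw [if_pos h]
        · rw [if_neg h]
          rcases h4 with h4 | h4 | h4
          · exact absurd h4 h
          · left; simp [h4]
          · right; simp [h4]
  · rintro ⟨g, ⟨a, ha, b, hb, hab⟩, hg⟩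
    have c1 : ∀ z < nn φ, g z = g 0 ∨ g z = g 1 := by
      intro z hz
      refine hg (z, 0, 1) ?_
      unfold cons
      refine List.mem_append_left _ (List.mem_append_left _ ?_)
      exact List.mem_map.2 ⟨z, List.mem_range.2 hz, rfl⟩
    have c2 : ∀ x < 3 * φ.length, (g 0 = g (2 + 2 * x) ∨ g 0 = g (3 + 2 * x)) ∧
        (g 1 = g (2 + 2 * x) ∨ g 1 = g (3 + 2 * x)) := by
      intro x hx
      constructor
      · refine hg (0, 2 + 2 * x, 3 + 2 * x) ?_
        unfold cons
        refine List.mem_append_left _ (List.mem_append_right _ ?_)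
        exact List.mem_flatMap.2 ⟨x, List.mem_range.2 hx, by simp⟩
      · refine hg (1, 2 + 2 * x, 3 + 2 * x) ?_
        unfold cons
        refine List.mem_append_left _ (List.mem_append_right _ ?_)
        exact List.mem_flatMap.2 ⟨x, List.mem_range.2 hx, by simp⟩
    have c3 : ∀ i cl, φ[i]? = some cl →
        (g 0 = g (lc cl.1) ∨ g 0 = g (2 + 2 * (3 * φ.length) + i)) ∧
        (g (2 + 2 * (3 * φ.length) + i) = g (lc cl.2.1) ∨
          g (2 + 2 * (3 * φ.length) + i) = g (lc cl.2.2)) := by
      intro i cl hi
      constructor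
      · refine hg (0, lc cl.1, 2 + 2 * (3 * φ.length) + i) ?_
        unfold cons
        refine List.mem_append_right _ ?_
        exact List.mem_flatMap.2 ⟨(cl, i), List.mem_zipIdx_iff_getElem?.2 hi, by simp⟩
      · refine hg (2 + 2 * (3 * φ.length) + i, lc cl.2.1, lc cl.2.2) ?_
        unfold cons
        refine List.mem_append_right _ ?_
        exact List.mem_flatMap.2 ⟨(cl, i), List.mem_zipIdx_iff_getElem?.2 hi, by simp⟩
    have h01 : g 0 ≠ g 1 := by
      intro h
      have k1 := c1 a ha
      have k2 := c1 b hb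
      rw [← h] at k1 k2
      exact hab ((k1.elim id id).trans (k2.elim id id).symm)
    refine ⟨fun x => decide (g (2 + 2 * x) = g 0), ?_⟩
    intro cl hcl
    obtain ⟨i, hi, hi2⟩ := List.mem_iff_getElem.1 hcl
    have hi3 : φ[i]? = some cl := by rw [List.getElem?_eq_getElem hi, hi2]
    have hl : ∀ l : Lit ℕ, l.2 < 3 * φ.length → g 0 = g (lc l) →
        decide (g (2 + 2 * l.2) = g 0) = l.1 := by
      rintro ⟨b, x⟩ hx h
      have h2 := c2 x hx
      cases b
      · have : lc (false, x) = 3 + 2 * x := by simp only [lc]; simp; omega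
        rw [this] at h
        simp only [decide_eq_false_iff_not]
        intro h3
        rw [← h, h3] at h2
        exact h01 (h2.2.elim id id).symm
      · have : lc (true, x) = 2 + 2 * x := by simp only [lc]; simp
        rw [this] at h
        simp only [decide_eq_true_eq]
        exact h.symm
    have h3 := hφ cl hcl
    obtain ⟨h4, h5⟩ := c3 i cl hi3
    rcases h4 with h4 | h4
    · exact Or.inl (hl _ h3.1 h4)
    · rw [← h4] at h5
      rcases h5 with h5 | h5
      · exact Or.inr (Or.inl (hl _ h3.2.1 h5))
      · exact Or.inr (Or.inr (hl _ h3.2.2 h5))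

end Pool.Agent.Q227.MC
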