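import Mathlib

/-!
# Matching cuts, the spider `S_{2,2,2,2}`
-/

set_option autoImplicit false

namespace Pool.Agent.Q227.MC

/-- `G` has a matching cut: the vertex set can be partitioned into two nonempty sets `A` and `Aᶜ`
such that the edges with one end in `A` and one end in `Aᶜ` form a matching (two such edges
`u v` and `w x`, with `u w` in `A` and `v x` outside `A`, share one end only if they are equal). -/
def HasMatchingCut {V : Type} (G : SimpleGraph V) : Prop :=
  ∃ A : Set V, A.Nonempty ∧ Aᶜ.Nonempty ∧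
    ∀ u ∈ A, ∀ v ∉ A, ∀ w ∈ A, ∀ x ∉ A, G.Adj u v → G.Adj w x → (u = w ↔ v = x)

/-- The graph `S_{2,2,2,2}`: the centre `none` is joined to the four vertices `(s, false)`, and
`(s, false)` is joined to the leaf `(s, true)`. -/
def S2222 : SimpleGraph (Option (Fin 4 × Bool)) :=
  SimpleGraph.fromRel fun x y => (x = none ∧ ∃ s, y = some (s, false)) ∨
    ∃ s, x = some (s, false) ∧ y = some (s, true)

/-- The colouring form of matching cuts. -/
def Cut {V : Type} (G : SimpleGraph V) : Prop :=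
  ∃ f : V → Bool, (∃ u v, f u ≠ f v) ∧
    ∀ v x y, G.Adj v x → G.Adj v y → f x ≠ f v → f y ≠ f v → x = y

theorem cut_iff {V : Type} (G : SimpleGraph V) : HasMatchingCut G ↔ Cut G := by
  classical
  constructor
  · rintro ⟨A, ⟨a, ha⟩, ⟨b, hb⟩, hA⟩
    refine ⟨fun v => decide (v ∈ A), ⟨a, b, ?_⟩, ?_⟩
    · simp only [ne_eq, decide_eq_decide]
      exact fun h => hb (h.1 ha)
    · intro v x y hx hy h1 h2
      simp only [ne_eq, decide_eq_decide] at h1 h2
      by_cases hv : v ∈ A
      · have h3 : x ∉ A := fun h => h1 ⟨fun _ => hv, fun _ => h⟩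
        have h4 : y ∉ A := fun h => h2 ⟨fun _ => hv, fun _ => h⟩
        exact (hA v hv x h3 v hv y h4 hx hy).1 rfl
      · have h3 : x ∈ A := by
          by_contra h
          exact h1 ⟨fun h' => absurd h' h, fun h' => absurd h' hv⟩
        have h4 : y ∈ A := by
          by_contra h
          exact h2 ⟨fun h' => absurd h' h, fun h' => absurd h' hv⟩
        exact (hA x h3 v hv y h4 v hv hx.symm hy.symm).2 rfl
  · rintro ⟨f, ⟨u, v, huv⟩, hf⟩
    have key : ∀ a b : V, f a ≠ f b → f a = true ∨ f b = true := by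
      intro a b
      cases f a <;> cases f b <;> simp
    refine ⟨{v | f v = true}, ?_, ?_, ?_⟩
    · rcases key u v huv with h | h
      · exact ⟨u, h⟩
      · exact ⟨v, h⟩
    · by_cases h : f u = true
      · exact ⟨v, fun h2 => huv (h.trans (Eq.symm h2))⟩
      · exact ⟨u, h⟩
    · intro a ha b hb c hc d hd h1 h2
      simp only [Set.mem_setOf_eq, Bool.not_eq_true] at ha hb hc hd
      constructor
      · rintro rfl
        exact hf a b d h1 h2 (by simp [ha, hb]) (by simp [ha, hd])
      · rintro rfl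
        exact hf b a c h1.symm h2.symm (by simp [ha, hb]) (by simp [hc, hb])

theorem Cut.iso {V W : Type} {G : SimpleGraph V} {H : SimpleGraph W} (e : G ≃g H)
    (h : Cut G) : Cut H := by
  obtain ⟨f, ⟨u, v, huv⟩, hf⟩ := h
  refine ⟨fun w => f (e.symm w), ⟨e u, e v, by simpa using huv⟩, ?_⟩
  intro v x y h1 h2 h3 h4
  exact e.symm.injective (hf _ _ _ (e.symm.map_rel_iff.2 h1) (e.symm.map_rel_iff.2 h2) h3 h4)

theorem cut_congr {V W : Type} {G : SimpleGraph V} {H : SimpleGraph W} (e : G ≃g H) :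
    Cut G ↔ Cut H := ⟨Cut.iso e, Cut.iso e.symm⟩

/-- A spider in a graph. -/
theorem not_free {V : Type} {G : SimpleGraph V} (h : ¬ S2222.Free G) :
    ∃ (v : V) (n l : Fin 4 → V), Function.Injective n ∧ Function.Injective l ∧
      (∀ s, G.Adj v (n s)) ∧ (∀ s, G.Adj (n s) (l s)) ∧ (∀ s, l s ≠ v) ∧
      ∀ s t, n s ≠ l t := by
  unfold SimpleGraph.Free at h
  rw [not_not] at h
  obtain ⟨φ⟩ := h
  have hinj := φ.injective
  have hadj : ∀ x y, S2222.Adj x y → G.Adj (φ x) (φ y) := fun x y hxy => φ.toHom.map_adj hxy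
  refine ⟨φ none, fun s => φ (some (s, false)), fun s => φ (some (s, true)), ?_, ?_, ?_, ?_,
    ?_, ?_⟩
  · intro s t hst
    have := hinj hst
    simpa using this
  · intro s t hst
    have := hinj hst
    simpa using this
  · intro s
    refine hadj _ _ ?_
    rw [S2222, SimpleGraph.fromRel_adj]
    exact ⟨by simp, Or.inl (Or.inl ⟨rfl, s, rfl⟩)⟩
  · intro s
    refine hadj _ _ ?_
    rw [S2222, SimpleGraph.fromRel_adj]
    exact ⟨by simp, Or.inl (Or.inr ⟨s, rfl, rfl⟩)⟩
  · intro s h
    have := hinj h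
    simp at this
  · intro s t h
    have := hinj h
    simp at this

/-- A Hall type condition excluding spiders. -/
theorem no_spider {V : Type} {A : V → V → Prop} {v : V} {n l : Fin 4 → V}
    (hn : Function.Injective n) (hl : Function.Injective l) (hv : ∀ s, A v (n s))
    (hnl : ∀ s, A (n s) (l s)) (hlv : ∀ s, l s ≠ v) (hd : ∀ s t, n s ≠ l t)
    (h : ∃ x1 x2 x3 x4, (∀ u, A v u → u = x1 ∨ u = x2 ∨ u = x3 ∨ u = x4) ∧
      (x3 = x4 ∨ (∀ u, A x1 u → u = v ∨ u = x1 ∨ u = x2 ∨ u = x3 ∨ u = x4) ∨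
        ∃ w, (∀ u, A x1 u → u = v ∨ u = x1 ∨ u = x2 ∨ u = x3 ∨ u = x4 ∨ u = w) ∧
          ∀ u, A x2 u → u = v ∨ u = x1 ∨ u = x2 ∨ u = x3 ∨ u = x4 ∨ u = w)) : False := by
  classical
  obtain ⟨x1, x2, x3, x4, hN, h⟩ := h
  have hsub : Finset.univ.image n ⊆ ({x1, x2, x3, x4} : Finset V) := by
    intro u hu
    obtain ⟨s, -, rfl⟩ := Finset.mem_image.1 hu
    simpa using hN _ (hv s)
  have hcard : (Finset.univ.image n).card = 4 := by
    rw [Finset.card_image_of_injective _ hn]
    simp
  have hle : ({x1, x2, x3, x4} : Finset V).card ≤ 4 := Finset.card_le_four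
  have heq : Finset.univ.image n = ({x1, x2, x3, x4} : Finset V) :=
    Finset.eq_of_subset_of_card_le hsub (by omega)
  have hat : ∀ x ∈ ({x1, x2, x3, x4} : Finset V), ∃ s, n s = x := by
    intro x hx
    rw [← heq] at hx
    obtain ⟨s, -, h⟩ := Finset.mem_image.1 hx
    exact ⟨s, h⟩
  obtain ⟨s1, h1⟩ := hat x1 (by simp)
  obtain ⟨s2, h2⟩ := hat x2 (by simp)
  obtain ⟨s3, h3⟩ := hat x3 (by simp)
  obtain ⟨s4, h4⟩ := hat x4 (by simp)
  have hx12 : x1 ≠ x2 := by
    rintro rfl
    have h5 : ({x1, x1, x3, x4} : Finset V).card = 4 := by rw [← heq]; exact hcard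
    have h6 : ({x1, x1, x3, x4} : Finset V).card ≤ 3 := by
      rw [Finset.insert_eq_of_mem (by simp)]
      exact Finset.card_le_three
    omega
  rcases h with rfl | h | ⟨w, hw1, hw2⟩
  · have h5 : ({x1, x2, x3, x3} : Finset V).card = 4 := by rw [← heq]; exact hcard
    have h6 : ({x1, x2, x3, x3} : Finset V).card ≤ 3 := by
      rw [Finset.pair_eq_singleton]
      exact Finset.card_le_three
    omega
  · have h5 := hnl s1
    rw [h1] at h5
    rcases h _ h5 with h6 | h6 | h6 | h6 | h6
    · exact hlv _ h6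
    · exact hd _ _ (h1.trans h6.symm)
    · exact hd _ _ (h2.trans h6.symm)
    · exact hd _ _ (h3.trans h6.symm)
    · exact hd _ _ (h4.trans h6.symm)
  · have h5 : l s1 = w := by
      have h5 := hnl s1
      rw [h1] at h5
      rcases hw1 _ h5 with h6 | h6 | h6 | h6 | h6 | h6
      · exact absurd h6 (hlv _)
      · exact absurd (h1.trans h6.symm) (hd _ _)
      · exact absurd (h2.trans h6.symm) (hd _ _)
      · exact absurd (h3.trans h6.symm) (hd _ _)
      · exact absurd (h4.trans h6.symm) (hd _ _)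
      · exact h6
    have h7 : l s2 = w := by
      have h5 := hnl s2
      rw [h2] at h5
      rcases hw2 _ h5 with h6 | h6 | h6 | h6 | h6 | h6
      · exact absurd h6 (hlv _)
      · exact absurd (h1.trans h6.symm) (hd _ _)
      · exact absurd (h2.trans h6.symm) (hd _ _)
      · exact absurd (h3.trans h6.symm) (hd _ _)
      · exact absurd (h4.trans h6.symm) (hd _ _)
      · exact h6
    have h8 : s1 = s2 := hl (h5.trans h7.symm)
    exact hx12 (by rw [← h1, ← h2, h8])

end Pool.Agent.Q227.MC
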