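import Pool.Agent.Q227.MC.Graph

/-!
# The graph of diamond chains is `S_{2,2,2,2}`-subgraph-free
-/

set_option autoImplicit false

namespace Pool.Agent.Q227.MC

open Pool.Agent.NPC Pool.Agent.Q227

/-- The description of the neighbours. -/
theorem nb {n : ℕ} {cs : List Con} (hb : Bdd n cs) {c k c' k' : ℕ}
    (h : adj n cs (c, k) (c', k') = true) :
    (c' = c ∧ (k' = k + 1 ∨ (k' = k + 2 ∧ k % 3 ≠ 2) ∨ k = k' + 1 ∨ (k = k' + 2 ∧ k' % 3 ≠ 2))) ∨
    (∃ j P A B, cs[j]? = some (P, A, B) ∧ j < cs.length ∧ c = n + j ∧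
      ((k = 0 ∧ c' = P ∧ (k' = 24 * j + 4 ∨ k' = 24 * j + 10)) ∨
        (k = 24 * cs.length + 3 ∧
          ((c' = A ∧ k' = 24 * j + 16) ∨ (c' = B ∧ k' = 24 * j + 22))))) ∨
    (∃ j, j < cs.length ∧ c < n ∧ c' = n + j ∧ ((k' = 0 ∧ (k = 24 * j + 4 ∨ k = 24 * j + 10)) ∨
      (k' = 24 * cs.length + 3 ∧ (k = 24 * j + 16 ∨ k = 24 * j + 22)))) := by
  rcases adj_iff.1 h with (h | h) | (h | h)
  · left
    have := inn_iff.1 h
    omega
  · left
    have := inn_iff.1 h
    omega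
  · right; left
    obtain ⟨j, P, A, B, hj, hc, h⟩ := out_iff.1 h
    exact ⟨j, P, A, B, hj, (hb.get hj).1, hc, h⟩
  · right; right
    obtain ⟨j, P, A, B, hj, hc, h⟩ := out_iff.1 h
    have := hb.get hj
    exact ⟨j, by omega, by omega, hc, by omega⟩

theorem plain_a {n : ℕ} {cs : List Con} (hb : Bdd n cs) {c k : ℕ} (hk : k % 6 = 1) {u : Cd}
    (h : adj n cs (c, k) u = true) : u = (c, k - 1) ∨ u = (c, k + 1) ∨ u = (c, k + 2) := by
  obtain ⟨c', k'⟩ := u
  simp only [Prod.mk.injEq]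
  rcases nb hb h with h | ⟨j, P, A, B, hj, hjl, hc, h⟩ | ⟨j, hj, hc, hc', h⟩
  · omega
  · omega
  · omega

theorem plain_b {n : ℕ} {cs : List Con} (hb : Bdd n cs) {c k : ℕ} (hk : k % 3 = 2) {u : Cd}
    (h : adj n cs (c, k) u = true) : u = (c, k - 2) ∨ u = (c, k - 1) ∨ u = (c, k + 1) := by
  obtain ⟨c', k'⟩ := u
  simp only [Prod.mk.injEq]
  rcases nb hb h with h | ⟨j, P, A, B, hj, hjl, hc, h⟩ | ⟨j, hj, hc, hc', h⟩
  · omega
  · omega
  · omega

theorem hall {n : ℕ} {cs : List Con} (hb : Bdd n cs) (v : Cd) :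
    ∃ x1 x2 x3 x4, (∀ u, adj n cs v u = true → u ∈ VL n cs →
        u = x1 ∨ u = x2 ∨ u = x3 ∨ u = x4) ∧
      (x3 = x4 ∨ (∀ u, adj n cs x1 u = true → u = v ∨ u = x1 ∨ u = x2 ∨ u = x3 ∨ u = x4) ∨
        ∃ w, (∀ u, adj n cs x1 u = true →
            u = v ∨ u = x1 ∨ u = x2 ∨ u = x3 ∨ u = x4 ∨ u = w) ∧
          ∀ u, adj n cs x2 u = true →
            u = v ∨ u = x1 ∨ u = x2 ∨ u = x3 ∨ u = x4 ∨ u = w) := by
  obtain ⟨c, k⟩ := v
  have h6 : k % 3 = 2 ∨ k % 3 = 1 ∨ (k % 6 = 0 ∧ 0 < k) ∨ k = 0 ∨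
      (k % 6 = 3 ∧ k ≠ 24 * cs.length + 3) ∨ k = 24 * cs.length + 3 := by omega
  rcases h6 with hk | hk | ⟨hk, hk0⟩ | hk | ⟨hk, hk0⟩ | hk
  · -- degree three
    refine ⟨(c, k - 1), (c, k - 2), (c, k + 1), (c, k + 1), ?_, Or.inl rfl⟩
    intro u hu _
    rcases plain_b hb hk hu with h | h | h <;> simp [h]
  · -- ported or plain first middle
    refine ⟨(c, k + 1), (c, k - 1), (c, k + 2), (n + (k - 4) / 24,
      if (k - 4) / 6 % 4 < 2 then 0 else 24 * cs.length + 3), ?_, Or.inr (Or.inl ?_)⟩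
    · rintro ⟨c', k'⟩ hu _
      simp only [Prod.mk.injEq]
      rcases nb hb hu with h | ⟨j, P, A, B, hj, hjl, hc, h⟩ | ⟨j, hj, hc, hc', h⟩
      · omega
      · omega
      · right; right; right
        split_ifs <;> omega
    · intro u hu
      rcases plain_b hb (k := k + 1) (by omega) hu with h | h | h
      · right; right; left; rw [h, show k + 1 - 2 = k - 1 by omega]
      · left; rw [h, show k + 1 - 1 = k by omega]
      · right; right; right; left; rw [h, show k + 1 + 1 = k + 2 by omega]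
  · refine ⟨(c, k + 1), (c, k + 2), (c, k - 1), (c, k - 2), ?_, Or.inr (Or.inr ⟨(c, k + 3), ?_, ?_⟩)⟩
    · rintro ⟨c', k'⟩ hu _
      simp only [Prod.mk.injEq]
      rcases nb hb hu with h | ⟨j, P, A, B, hj, hjl, hc, h⟩ | ⟨j, hj, hc, hc', h⟩ <;> omega
    · intro u hu
      rcases plain_a hb (k := k + 1) (by omega) hu with h | h | h <;>
        simp [h]
    · intro u hu
      rcases plain_b hb (k := k + 2) (by omega) hu with h | h | h <;>
        simp [h]
  · subst hk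
    have hex : ∃ x3 x4 : Cd, ∀ u, adj n cs (c, 0) u = true → u ∈ VL n cs → u = (c, 1) ∨ u = (c, 2) ∨ u = x3 ∨
        u = x4 := by
      by_cases hj : ∃ j P A B, cs[j]? = some (P, A, B) ∧ c = n + j
      · obtain ⟨j, P, A, B, hj, rfl⟩ := hj
        refine ⟨(P, 24 * j + 4), (P, 24 * j + 10), ?_⟩
        rintro ⟨c', k'⟩ hu _
        simp only [Prod.mk.injEq]
        rcases nb hb hu with h | ⟨j', P', A', B', hj', hjl, hc, h⟩ | ⟨j', hj', hc, hc', h⟩
        · omega
        · obtain rfl : j' = j := by omega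
          rw [hj] at hj'
          simp only [Option.some.injEq, Prod.mk.injEq] at hj'
          obtain ⟨rfl, rfl, rfl⟩ := hj'
          omega
        · omega
      · refine ⟨(c, 1), (c, 1), ?_⟩
        rintro ⟨c', k'⟩ hu _
        simp only [Prod.mk.injEq]
        rcases nb hb hu with h | ⟨j', P', A', B', hj', hjl, hc, h⟩ | ⟨j', hj', hc, hc', h⟩
        · omega
        · exact absurd ⟨j', P', A', B', hj', hc⟩ hj
        · omega
    obtain ⟨x3, x4, hx⟩ := hex
    refine ⟨(c, 1), (c, 2), x3, x4, hx, Or.inr (Or.inr ⟨(c, 3), ?_, ?_⟩)⟩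
    · intro u hu
      rcases plain_a hb (k := 1) (by omega) hu with h | h | h <;> simp [h]
    · intro u hu
      rcases plain_b hb (k := 2) (by omega) hu with h | h | h <;> simp [h]
  · refine ⟨(c, k - 2), (c, k - 1), (c, k + 1), (c, k + 2), ?_, Or.inr (Or.inr ⟨(c, k - 3), ?_, ?_⟩)⟩
    · rintro ⟨c', k'⟩ hu _
      simp only [Prod.mk.injEq]
      rcases nb hb hu with h | ⟨j, P, A, B, hj, hjl, hc, h⟩ | ⟨j, hj, hc, hc', h⟩ <;> omega
    · intro u hu
      rcases plain_a hb (k := k - 2) (by omega) hu with h | h | h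
      · rw [h, show k - 2 - 1 = k - 3 by omega]; simp
      · rw [h, show k - 2 + 1 = k - 1 by omega]; simp
      · rw [h, show k - 2 + 2 = k by omega]; simp
    · intro u hu
      rcases plain_b hb (k := k - 1) (by omega) hu with h | h | h
      · rw [h, show k - 1 - 2 = k - 3 by omega]; simp
      · rw [h, show k - 1 - 1 = k - 2 by omega]; simp
      · rw [h, show k - 1 + 1 = k by omega]; simp
  · have hex : ∃ x3 x4 : Cd, ∀ u, adj n cs (c, k) u = true → u ∈ VL n cs →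
        u = (c, k - 2) ∨ u = (c, k - 1) ∨ u = x3 ∨ u = x4 := by
      by_cases hj : ∃ j P A B, cs[j]? = some (P, A, B) ∧ c = n + j
      · obtain ⟨j, P, A, B, hj, rfl⟩ := hj
        refine ⟨(A, 24 * j + 16), (B, 24 * j + 22), ?_⟩
        rintro ⟨c', k'⟩ hu hV
        rw [mem_VL] at hV
        simp only [Prod.mk.injEq]
        rcases nb hb hu with h | ⟨j', P', A', B', hj', hjl, hc, h⟩ | ⟨j', hj', hc, hc', h⟩
        · omega
        · obtain rfl : j' = j := by omega
          rw [hj] at hj'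
          simp only [Option.some.injEq, Prod.mk.injEq] at hj'
          obtain ⟨rfl, rfl, rfl⟩ := hj'
          omega
        · omega
      · refine ⟨(c, k - 2), (c, k - 2), ?_⟩
        rintro ⟨c', k'⟩ hu hV
        rw [mem_VL] at hV
        simp only [Prod.mk.injEq]
        rcases nb hb hu with h | ⟨j', P', A', B', hj', hjl, hc, h⟩ | ⟨j', hj', hc, hc', h⟩
        · omega
        · exact absurd ⟨j', P', A', B', hj', hc⟩ hj
        · omega
    obtain ⟨x3, x4, hx⟩ := hex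
    refine ⟨(c, k - 2), (c, k - 1), x3, x4, hx, Or.inr (Or.inr ⟨(c, k - 3), ?_, ?_⟩)⟩
    · intro u hu
      rcases plain_a hb (k := k - 2) (by omega) hu with h | h | h
      · rw [h, show k - 2 - 1 = k - 3 by omega]; simp
      · rw [h, show k - 2 + 1 = k - 1 by omega]; simp
      · rw [h, show k - 2 + 2 = k by omega]; simp
    · intro u hu
      rcases plain_b hb (k := k - 1) (by omega) hu with h | h | h
      · rw [h, show k - 1 - 2 = k - 3 by omega]; simp
      · rw [h, show k - 1 - 1 = k - 2 by omega]; simp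
      · rw [h, show k - 1 + 1 = k by omega]; simp

/-- The graph contains no spider. -/
theorem GC_free {n : ℕ} {cs : List Con} (hb : Bdd n cs) : S2222.Free (GC n cs) := by
  by_contra h
  obtain ⟨v, nn, l, h1, h2, h3, h4, h5, h6⟩ := not_free (fun h' => h' h)
  obtain ⟨x1, x2, x3, x4, hN, hx⟩ := hall hb v.1
  refine no_spider (A := fun a b => adj n cs a b = true ∧ b ∈ VL n cs) (v := v.1)
    (n := fun s => (nn s).1) (l := fun s => (l s).1) (fun s t h => h1 (Subtype.ext h))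
    (fun s t h => h2 (Subtype.ext h)) (fun s => ⟨h3 s, (nn s).2⟩) (fun s => ⟨h4 s, (l s).2⟩)
    (fun s h => h5 s (Subtype.ext h)) (fun s t h => h6 s t (Subtype.ext h))
    ⟨x1, x2, x3, x4, fun u hu => hN u hu.1 hu.2, ?_⟩
  rcases hx with hx | hx | ⟨w, hw1, hw2⟩
  · exact Or.inl hx
  · exact Or.inr (Or.inl fun u hu => hx u hu.1)
  · exact Or.inr (Or.inr ⟨w, fun u hu => hw1 u hu.1, fun u hu => hw2 u hu.1⟩)

end Pool.Agent.Q227.MC
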