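import Pool.Agent.Q227.MC.Defs
import Pool.Agent.Q227.MkG

/-!
# The graph of diamond chains
-/

set_option autoImplicit false

namespace Pool.Agent.Q227.MC

open Pool.Agent.NPC Pool.Agent.Q227

/-- Constraints `(P, A, B)`: the colour of `P` is the colour of `A` or of `B`. -/
abbrev Con : Type := ℕ × ℕ × ℕ

/-- Vertices: `(c, k)` is the vertex number `k` of the cluster `c`. -/
abbrev Cd : Type := ℕ × ℕ

/-- The edges inside a cluster (oriented upwards). -/
def inn (u v : Cd) : Bool :=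
  decide (u.1 = v.1) && (decide (v.2 = u.2 + 1) ||
    (decide (v.2 = u.2 + 2) && !decide (u.2 % 3 = 2)))

/-- The edges between the clusters. -/
def outL (n : ℕ) (cs : List Con) : List (Cd × Cd) :=
  cs.zipIdx.flatMap fun q =>
    [((n + q.2, 0), (q.1.1, 24 * q.2 + 4)), ((n + q.2, 0), (q.1.1, 24 * q.2 + 10)),
      ((n + q.2, 24 * cs.length + 3), (q.1.2.1, 24 * q.2 + 16)),
      ((n + q.2, 24 * cs.length + 3), (q.1.2.2, 24 * q.2 + 22))]

/-- Adjacency. -/
def adj (n : ℕ) (cs : List Con) (u v : Cd) : Bool :=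
  (inn u v || inn v u) || (decide ((u, v) ∈ outL n cs) || decide ((v, u) ∈ outL n cs))

/-- The vertices. -/
def VL (n : ℕ) (cs : List Con) : List Cd :=
  List.range (n + cs.length) ×ˢ List.range (24 * cs.length + 4)

theorem mem_VL {n : ℕ} {cs : List Con} {c k : ℕ} :
    (c, k) ∈ VL n cs ↔ c < n + cs.length ∧ k < 24 * cs.length + 4 := by
  unfold VL
  rw [List.mem_product, List.mem_range, List.mem_range]

theorem VL_nodup (n : ℕ) (cs : List Con) : (VL n cs).Nodup :=
  List.nodup_range.product List.nodup_range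

theorem inn_iff {c k c' k' : ℕ} : inn (c, k) (c', k') = true ↔
    c = c' ∧ (k' = k + 1 ∨ (k' = k + 2 ∧ k % 3 ≠ 2)) := by
  simp [inn]

theorem out_iff {n : ℕ} {cs : List Con} {c k c' k' : ℕ} : ((c, k), (c', k')) ∈ outL n cs ↔
    ∃ j P A B, cs[j]? = some (P, A, B) ∧ c = n + j ∧
      ((k = 0 ∧ c' = P ∧ (k' = 24 * j + 4 ∨ k' = 24 * j + 10)) ∨
        (k = 24 * cs.length + 3 ∧ ((c' = A ∧ k' = 24 * j + 16) ∨ (c' = B ∧ k' = 24 * j + 22)))) := by
  unfold outL
  rw [List.mem_flatMap]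
  constructor
  · rintro ⟨⟨⟨P, A, B⟩, j⟩, hq, h⟩
    rw [List.mem_zipIdx_iff_getElem?] at hq
    simp only [List.mem_cons, Prod.mk.injEq, List.not_mem_nil, or_false] at h
    refine ⟨j, P, A, B, hq, ?_⟩
    tauto
  · rintro ⟨j, P, A, B, hq, rfl, h⟩
    refine ⟨((P, A, B), j), ?_, ?_⟩
    · rw [List.mem_zipIdx_iff_getElem?]
      exact hq
    · simp only [List.mem_cons, Prod.mk.injEq, List.not_mem_nil, or_false]
      tauto

theorem adj_iff {n : ℕ} {cs : List Con} {u v : Cd} : adj n cs u v = true ↔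
    (inn u v = true ∨ inn v u = true) ∨ ((u, v) ∈ outL n cs ∨ (v, u) ∈ outL n cs) := by
  simp only [adj, Bool.or_eq_true, decide_eq_true_eq]

theorem adj_symm (n : ℕ) (cs : List Con) : ∀ u v, adj n cs u v = true → adj n cs v u = true := by
  intro u v h
  rw [adj_iff] at h ⊢
  tauto

theorem adj_irrefl (n : ℕ) (cs : List Con) : ∀ u, adj n cs u u = false := by
  rintro ⟨c, k⟩
  rw [Bool.eq_false_iff]
  intro h
  rw [adj_iff] at h
  rcases h with (h | h) | (h | h)
  · rw [inn_iff] at h; omega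
  · rw [inn_iff] at h; omega
  · rw [out_iff] at h
    obtain ⟨j, P, A, B, -, -, h⟩ := h
    omega
  · rw [out_iff] at h
    obtain ⟨j, P, A, B, -, -, h⟩ := h
    omega

/-- The graph. -/
def GC (n : ℕ) (cs : List Con) : SimpleGraph {v : Cd // v ∈ VL n cs} :=
  GrL (VL n cs) (adj n cs) (adj_symm n cs) (adj_irrefl n cs)

/-- All clusters mentioned are main clusters. -/
def Bdd (n : ℕ) (cs : List Con) : Prop := ∀ q ∈ cs, q.1 < n ∧ q.2.1 < n ∧ q.2.2 < n

theorem Bdd.get {n : ℕ} {cs : List Con} (h : Bdd n cs) {j P A B : ℕ}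
    (hj : cs[j]? = some (P, A, B)) : j < cs.length ∧ P < n ∧ A < n ∧ B < n := by
  obtain ⟨h1, h2⟩ := List.getElem?_eq_some_iff.1 hj
  have h3 := h _ (List.getElem_mem h1)
  rw [h2] at h3
  exact ⟨h1, h3⟩

/-- Solutions of the constraint system. -/
def Sol (n : ℕ) (cs : List Con) : Prop :=
  ∃ g : ℕ → Bool, (∃ a < n, ∃ b < n, g a ≠ g b) ∧ ∀ q ∈ cs, g q.1 = g q.2.1 ∨ g q.1 = g q.2.2

/-- The condition on the colouring, for a function on all codes. -/
def Good (n : ℕ) (cs : List Con) (F : Cd → Bool) : Prop :=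
  ∀ v x y, v ∈ VL n cs → x ∈ VL n cs → y ∈ VL n cs → adj n cs v x = true → adj n cs v y = true →
    F x ≠ F v → F y ≠ F v → x = y

theorem tri {n : ℕ} {cs : List Con} {F : Cd → Bool} (hF : Good n cs F) {a b c : Cd}
    (ha : a ∈ VL n cs) (hb : b ∈ VL n cs) (hc : c ∈ VL n cs) (hab : adj n cs a b = true)
    (hac : adj n cs a c = true) (hbc : adj n cs b c = true) (h1 : a ≠ b) (h2 : a ≠ c)
    (h3 : b ≠ c) : F b = F a ∧ F c = F a := by
  have k1 : ¬ (F b ≠ F a ∧ F c ≠ F a) := fun h => h3 (hF a b c ha hb hc hab hac h.1 h.2)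
  have k2 : ¬ (F a ≠ F b ∧ F c ≠ F b) := fun h =>
    h2 (hF b a c hb ha hc (adj_symm _ _ _ _ hab) hbc h.1 h.2)
  have k3 : ¬ (F a ≠ F c ∧ F b ≠ F c) := fun h =>
    h1 (hF c a b hc ha hb (adj_symm _ _ _ _ hac) (adj_symm _ _ _ _ hbc) h.1 h.2)
  revert k1 k2 k3
  cases F a <;> cases F b <;> cases F c <;> simp

theorem mono {n : ℕ} {cs : List Con} {F : Cd → Bool} (hF : Good n cs F) {c : ℕ}
    (hc : c < n + cs.length) : ∀ k, k < 24 * cs.length + 4 → F (c, k) = F (c, 0) := by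
  intro k
  induction k using Nat.strong_induction_on with
  | _ k ih =>
    intro hk
    have hin : ∀ a b, a < b → (b = a + 1 ∨ (b = a + 2 ∧ a % 3 ≠ 2)) →
        adj n cs (c, a) (c, b) = true := fun a b _ hb =>
      adj_iff.2 (Or.inl (Or.inl (inn_iff.2 ⟨rfl, hb⟩)))
    have hT : ∀ a, a % 3 ≠ 2 → a + 2 < 24 * cs.length + 4 →
        F (c, a + 1) = F (c, a) ∧ F (c, a + 2) = F (c, a) := by
      intro a ha1 ha2
      refine tri hF (mem_VL.2 ⟨hc, by omega⟩) (mem_VL.2 ⟨hc, by omega⟩)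
        (mem_VL.2 ⟨hc, by omega⟩) (hin _ _ (by omega) (by omega)) (hin _ _ (by omega) (by omega))
        (hin _ _ (by omega) (by omega)) ?_ ?_ ?_
      · intro h; have := congrArg Prod.snd h; simp at this
      · intro h; have := congrArg Prod.snd h; simp at this
      · intro h; have := congrArg Prod.snd h; simp at this
    rcases Nat.eq_zero_or_pos k with rfl | hpos
    · rfl
    have h3 : k % 3 = 0 ∨ k % 3 = 1 ∨ k % 3 = 2 := by omega
    rcases h3 with h3 | h3 | h3
    · have h4 := (hT (k - 2) (by omega) (by omega)).2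
      rw [show k - 2 + 2 = k by omega] at h4
      rw [h4]
      exact ih (k - 2) (by omega) (by omega)
    · have h4 := (hT (k - 1) (by omega) (by omega)).1
      rw [show k - 1 + 1 = k by omega] at h4
      rw [h4]
      exact ih (k - 1) (by omega) (by omega)
    · have h4 := (hT (k - 2) (by omega) (by omega)).2
      rw [show k - 2 + 2 = k by omega] at h4
      rw [h4]
      exact ih (k - 2) (by omega) (by omega)

theorem sol_of_good {n : ℕ} {cs : List Con} (hb : Bdd n cs) {F : Cd → Bool} (hF : Good n cs F)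
    (hne : ∃ u v, u ∈ VL n cs ∧ v ∈ VL n cs ∧ F u ≠ F v) : Sol n cs := by
  have hval : ∀ c k, c < n + cs.length → k < 24 * cs.length + 4 → (c, k) ∈ VL n cs :=
    fun c k h1 h2 => mem_VL.2 ⟨h1, h2⟩
  -- the constraint cluster has the colour of its first cluster
  have hK : ∀ j P A B, cs[j]? = some (P, A, B) → F (n + j, 0) = F (P, 0) := by
    intro j P A B hj
    obtain ⟨h1, h2, h3, h4⟩ := hb.get hj
    by_contra h
    have e1 := mono hF (c := P) (by omega) (24 * j + 4) (by omega)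
    have e2 := mono hF (c := P) (by omega) (24 * j + 10) (by omega)
    have h5 := hF (n + j, 0) (P, 24 * j + 4) (P, 24 * j + 10) (hval _ _ (by omega) (by omega))
      (hval _ _ (by omega) (by omega)) (hval _ _ (by omega) (by omega))
      (adj_iff.2 (Or.inr (Or.inl (out_iff.2 ⟨j, P, A, B, hj, rfl, by omega⟩))))
      (adj_iff.2 (Or.inr (Or.inl (out_iff.2 ⟨j, P, A, B, hj, rfl, by omega⟩))))
      (by rw [e1]; exact fun h' => h h'.symm) (by rw [e2]; exact fun h' => h h'.symm)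
    have := congrArg Prod.snd h5
    simp only at this
    omega
  refine ⟨fun c => F (c, 0), ?_, ?_⟩
  · have hmain : ∀ c < n + cs.length, ∃ a < n, F (a, 0) = F (c, 0) := by
      intro c hc
      by_cases h : c < n
      · exact ⟨c, h, rfl⟩
      · obtain ⟨j, rfl⟩ : ∃ j, c = n + j := ⟨c - n, by omega⟩
        have hj : j < cs.length := by omega
        have hj2 : cs[j]? = some (cs[j].1, cs[j].2.1, cs[j].2.2) :=
          List.getElem?_eq_getElem hj
        have h3 := hb.get hj2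
        exact ⟨_, h3.2.1, (hK j _ _ _ hj2).symm⟩
    obtain ⟨⟨cu, ku⟩, ⟨cv, kv⟩, hu, hv, huv⟩ := hne
    rw [mem_VL] at hu hv
    obtain ⟨a, ha, ha2⟩ := hmain cu hu.1
    obtain ⟨b, hb', hb2⟩ := hmain cv hv.1
    refine ⟨a, ha, b, hb', ?_⟩
    show F (a, 0) ≠ F (b, 0)
    rw [ha2, hb2, ← mono hF hu.1 ku hu.2, ← mono hF hv.1 kv hv.2]
    exact huv
  · rintro ⟨P, A, B⟩ hq
    obtain ⟨j, hj1, hj2⟩ := List.mem_iff_getElem.1 hq
    have hj : cs[j]? = some (P, A, B) := by rw [List.getElem?_eq_getElem hj1, hj2]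
    obtain ⟨h1, h2, h3, h4⟩ := hb.get hj
    show F (P, 0) = F (A, 0) ∨ F (P, 0) = F (B, 0)
    by_contra h
    push Not at h
    have e0 := mono hF (c := n + j) (by omega) (24 * cs.length + 3) (by omega)
    have e1 := mono hF (c := A) (by omega) (24 * j + 16) (by omega)
    have e2 := mono hF (c := B) (by omega) (24 * j + 22) (by omega)
    have h5 := hF (n + j, 24 * cs.length + 3) (A, 24 * j + 16) (B, 24 * j + 22)
      (hval _ _ (by omega) (by omega)) (hval _ _ (by omega) (by omega))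
      (hval _ _ (by omega) (by omega))
      (adj_iff.2 (Or.inr (Or.inl (out_iff.2 ⟨j, P, A, B, hj, rfl, by omega⟩))))
      (adj_iff.2 (Or.inr (Or.inl (out_iff.2 ⟨j, P, A, B, hj, rfl, by omega⟩))))
      (by rw [e0, e1, hK j P A B hj]; exact fun h' => h.1 h'.symm)
      (by rw [e0, e2, hK j P A B hj]; exact fun h' => h.2 h'.symm)
    have := congrArg Prod.snd h5
    simp only at this
    omega

theorem good_of_sol {n : ℕ} {cs : List Con} (hb : Bdd n cs) (h : Sol n cs) :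
    ∃ F : Cd → Bool, Good n cs F ∧ ∃ u v, u ∈ VL n cs ∧ v ∈ VL n cs ∧ F u ≠ F v := by
  obtain ⟨g, ⟨a, ha, b, hb', hab⟩, hg⟩ := h
  let G : ℕ → Bool := fun c => if c < n then g c else g ((cs.getD (c - n) (0, 0, 0)).1)
  have hG1 : ∀ c < n, G c = g c := fun c hc => if_pos hc
  have hG2 : ∀ j P A B, cs[j]? = some (P, A, B) → G (n + j) = g P := by
    intro j P A B hj
    show (if n + j < n then _ else _) = _
    rw [if_neg (by omega), show n + j - n = j by omega, List.getD_eq_getElem?_getD, hj]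
    rfl
  refine ⟨fun v => G v.1, ?_, (a, 0), (b, 0), mem_VL.2 ⟨by omega, by omega⟩,
    mem_VL.2 ⟨by omega, by omega⟩, ?_⟩
  · rintro ⟨c, k⟩ ⟨c1, k1⟩ ⟨c2, k2⟩ hv hx hy h1 h2 h3 h4
    -- the edges leaving are outer
    have key : ∀ c1 k1, adj n cs (c, k) (c1, k1) = true → G c1 ≠ G c →
        ((c, k), (c1, k1)) ∈ outL n cs ∨ ((c1, k1), (c, k)) ∈ outL n cs := by
      intro c1 k1 h1 h2
      rcases adj_iff.1 h1 with (h | h) | h
      · exact absurd (by rw [(inn_iff.1 h).1]) h2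
      · exact absurd (by rw [(inn_iff.1 h).1]) h2
      · exact h
    have o1 := key c1 k1 h1 h3
    have o2 := key c2 k2 h2 h4
    have noP : ∀ c1 k1, ((c, k), (c1, k1)) ∈ outL n cs → G c1 ≠ G c → ∃ j P A B,
        cs[j]? = some (P, A, B) ∧ c = n + j ∧ k = 24 * cs.length + 3 ∧ G c = g P ∧
        ((c1 = A ∧ k1 = 24 * j + 16 ∧ g A ≠ g P) ∨ (c1 = B ∧ k1 = 24 * j + 22 ∧ g B ≠ g P)) := by
      intro c1 k1 ho hne
      obtain ⟨j, P, A, B, hj, rfl, h⟩ := out_iff.1 ho
      obtain ⟨g1, g2, g3, g4⟩ := hb.get hj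
      rw [hG2 j P A B hj] at hne
      rcases h with ⟨_, rfl, _⟩ | ⟨hk, h⟩
      · exact absurd (hG1 _ g2) hne
      · refine ⟨j, P, A, B, hj, rfl, hk, hG2 j P A B hj, ?_⟩
        rcases h with ⟨rfl, h⟩ | ⟨rfl, h⟩
        · rw [hG1 _ g3] at hne
          exact Or.inl ⟨rfl, h, hne⟩
        · rw [hG1 _ g4] at hne
          exact Or.inr ⟨rfl, h, hne⟩
    rcases o1 with o1 | o1
    · obtain ⟨j, P, A, B, hj, hc, hk, hcP, h5⟩ := noP c1 k1 o1 h3
      rcases o2 with o2 | o2
      · obtain ⟨j', P', A', B', hj', hc', hk', hcP', h5'⟩ := noP c2 k2 o2 h4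
        obtain rfl : j' = j := by omega
        rw [hj] at hj'
        simp only [Option.some.injEq, Prod.mk.injEq] at hj'
        obtain ⟨rfl, rfl, rfl⟩ := hj'
        have h6 := hg _ (List.mem_of_getElem? hj)
        simp only at h6
        rcases h5 with ⟨rfl, h5, h7⟩ | ⟨rfl, h5, h7⟩ <;> rcases h5' with ⟨rfl, h8, h9⟩ | ⟨rfl, h8, h9⟩
        · rw [h5, h8]
        · exact absurd h6 (by simp [h7.symm, h9.symm])
        · exact absurd h6 (by simp [h7.symm, h9.symm])
        · rw [h5, h8]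
      · obtain ⟨j', P', A', B', hj', hc', h'⟩ := out_iff.1 o2
        have := (hb.get hj').2
        omega
    · obtain ⟨j, P, A, B, hj, hc, h5⟩ := out_iff.1 o1
      have hbj := hb.get hj
      rcases o2 with o2 | o2
      · obtain ⟨j', P', A', B', hj', hc', hk', hcP', h5'⟩ := noP c2 k2 o2 h4
        omega
      · obtain ⟨j', P', A', B', hj', hc', h5'⟩ := out_iff.1 o2
        have hbj' := hb.get hj'
        have hjj : j' = j := by omega
        subst hjj
        have h6 : c1 = c2 ∧ k1 = k2 := by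
          rw [hc, hc']
          refine ⟨rfl, ?_⟩
          omega
        rw [h6.1, h6.2]
  · show G a ≠ G b
    rw [hG1 a ha, hG1 b hb']
    exact hab

theorem cut_iff_sol {n : ℕ} {cs : List Con} (hb : Bdd n cs) : Cut (GC n cs) ↔ Sol n cs := by
  classical
  constructor
  · rintro ⟨f, ⟨u, v, huv⟩, hf⟩
    refine sol_of_good hb (F := fun v => if h : v ∈ VL n cs then f ⟨v, h⟩ else false) ?_ ?_
    · intro v x y hv hx hy h1 h2 h3 h4
      simp only [dif_pos hv, dif_pos hx] at h3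
      simp only [dif_pos hv, dif_pos hy] at h4
      exact congrArg Subtype.val (hf ⟨v, hv⟩ ⟨x, hx⟩ ⟨y, hy⟩ h1 h2 h3 h4)
    · refine ⟨u.1, v.1, u.2, v.2, ?_⟩
      simp only [dif_pos u.2, dif_pos v.2]
      exact huv
  · intro h
    obtain ⟨F, hF, u, v, hu, hv, huv⟩ := good_of_sol hb h
    refine ⟨fun v => F v.1, ⟨⟨u, hu⟩, ⟨v, hv⟩, huv⟩, ?_⟩
    intro v x y h1 h2 h3 h4
    exact Subtype.ext (hF v.1 x.1 y.1 v.2 x.2 y.2 h1 h2 h3 h4)

end Pool.Agent.Q227.MC
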