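import Pool.Agent.Q227.MC.Defs
import Pool.Agent.H679R2.Oct.Mem
import Pool.Agent.H671R2.PolyAuto

/-!
# Matching cut: membership in `NP`
-/

set_option autoImplicit false

namespace Pool.Agent.Q227.MC

open Pool.Agent.NPC Pool.Agent.NPC.H679 Pool.Agent.H679R2

/-- Presented graphs. -/
abbrev PG : Type := List ℕ × List (ℕ × ℕ)

/-- The test whether a list of vertices is one side of a matching cut. -/
def cutb (I : PG) (w : List ℕ) : Bool :=
  I.1.any (fun u => decide (u ∈ w)) && (I.1.any (fun u => !decide (u ∈ w)) &&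
    I.1.all (fun v => I.1.all (fun x => I.1.all (fun y =>
      (!adjb I v x || !adjb I v y) || ((xor (decide (x ∈ w)) (!decide (v ∈ w)) ||
        xor (decide (y ∈ w)) (!decide (v ∈ w))) || decide (x = y))))))

theorem cutb_poly : Poly (fun p : PG × List ℕ => cutb p.1 p.2) := by
  have hI : Poly (fun p : PG × List ℕ => p.1.1) := by fun_prop
  refine Poly.and ?_ (Poly.and ?_ ?_)
  · fun_prop
  · fun_prop
  · refine Poly.all (p := fun (p : PG × List ℕ) (v : ℕ) => p.1.1.all (fun x => p.1.1.all (fun y =>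
      (!adjb p.1 v x || !adjb p.1 v y) || ((xor (decide (x ∈ p.2)) (!decide (v ∈ p.2)) ||
        xor (decide (y ∈ p.2)) (!decide (v ∈ p.2))) || decide (x = y))))) hI ?_
    refine Poly.all (p := fun (p : (PG × List ℕ) × ℕ) (x : ℕ) => p.1.1.1.all (fun y =>
      (!adjb p.1.1 p.2 x || !adjb p.1.1 p.2 y) || ((xor (decide (x ∈ p.1.2))
        (!decide (p.2 ∈ p.1.2)) ||
        xor (decide (y ∈ p.1.2)) (!decide (p.2 ∈ p.1.2))) || decide (x = y)))) (by fun_prop) ?_
    refine Poly.all (p := fun (p : ((PG × List ℕ) × ℕ) × ℕ) (y : ℕ) =>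
      (!adjb p.1.1.1 p.1.2 p.2 || !adjb p.1.1.1 p.1.2 y) || ((xor (decide (p.2 ∈ p.1.1.2))
        (!decide (p.1.2 ∈ p.1.1.2)) ||
        xor (decide (y ∈ p.1.1.2)) (!decide (p.1.2 ∈ p.1.1.2))) || decide (p.2 = y)))
      (by fun_prop) ?_
    have h1 : Poly (fun p : (((PG × List ℕ) × ℕ) × ℕ) × ℕ => adjb p.1.1.1.1 p.1.1.2 p.1.2) :=
      adjb_poly (by fun_prop) (by fun_prop) (by fun_prop)
    have h2 : Poly (fun p : (((PG × List ℕ) × ℕ) × ℕ) × ℕ => adjb p.1.1.1.1 p.1.1.2 p.2) :=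
      adjb_poly (by fun_prop) (by fun_prop) (by fun_prop)
    fun_prop

theorem sz_filter_le (l : List ℕ) (p : ℕ → Bool) : sz (l.filter p) ≤ sz l := by
  induction l with
  | nil => simp
  | cons a l ih =>
    by_cases h : p a
    · rw [List.filter_cons_of_pos h]
      simp only [sz_list_cons]
      omega
    · rw [List.filter_cons_of_neg h]
      simp only [sz_list_cons]
      omega

theorem xor_not_iff (a b : Bool) : (xor a (!b)) = true ↔ a = b := by
  cases a <;> cases b <;> simp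

theorem cutb_iff (I : PG) (w : List ℕ) : cutb I w = true ↔
    ((∃ u ∈ I.1, u ∈ w) ∧ (∃ u ∈ I.1, u ∉ w) ∧ ∀ v ∈ I.1, ∀ x ∈ I.1, ∀ y ∈ I.1,
      adjb I v x = true → adjb I v y = true → ¬ (x ∈ w ↔ v ∈ w) → ¬ (y ∈ w ↔ v ∈ w) → x = y) := by
  simp only [cutb, Bool.and_eq_true, List.all_eq_true, List.any_eq_true, decide_eq_true_eq,
    Bool.or_eq_true, Bool.not_eq_true', decide_eq_false_iff_not, xor_not_iff, decide_eq_decide]
  refine and_congr Iff.rfl (and_congr Iff.rfl ?_)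
  refine forall₂_congr fun v _ => forall₂_congr fun x _ => forall₂_congr fun y _ => ?_
  constructor
  · rintro ((h | h) | ((h | h) | h)) h1 h2 h3 h4
    · rw [h] at h1; exact Bool.noConfusion h1
    · rw [h] at h2; exact Bool.noConfusion h2
    · exact absurd h h3
    · exact absurd h h4
    · exact h
  · intro h
    by_cases h1 : adjb I v x = true
    · by_cases h2 : adjb I v y = true
      · by_cases h3 : x ∈ w ↔ v ∈ w
        · exact Or.inr (Or.inl (Or.inl h3))
        · by_cases h4 : y ∈ w ↔ v ∈ w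
          · exact Or.inr (Or.inl (Or.inr h4))
          · exact Or.inr (Or.inr (h h1 h2 h3 h4))
      · exact Or.inl (Or.inr (by simpa using h2))
    · exact Or.inl (Or.inl (by simpa using h1))

theorem cut_iff_cert (I : PG) : Cut (toGraph I) ↔
    ∃ w : List ℕ, sz w ≤ (Polynomial.X : Polynomial ℕ).eval (sz I) ∧ cutb I w = true := by
  classical
  constructor
  · rintro ⟨f, ⟨u, v, huv⟩, hf⟩
    obtain ⟨w, hw, hwsz⟩ : ∃ w : List ℕ, (∀ a : {v : ℕ // v ∈ I.1}, a.1 ∈ w ↔ f a = true) ∧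
        sz w ≤ sz I.1 := by
      refine ⟨I.1.filter (fun v => if h : v ∈ I.1 then f ⟨v, h⟩ else false), ?_,
        sz_filter_le _ _⟩
      intro a
      rw [List.mem_filter, dif_pos a.2]
      exact ⟨fun h => h.2, fun h => ⟨a.2, h⟩⟩
    have key : ∀ a b : {v : ℕ // v ∈ I.1}, (a.1 ∈ w ↔ b.1 ∈ w) ↔ f a = f b := by
      intro a b
      rw [hw, hw]
      exact Bool.eq_iff_iff.symm
    refine ⟨w, ?_, ?_⟩
    · rw [Polynomial.eval_X]
      have : sz I = sz I.1 + sz I.2 + 1 := sz_pair I.1 I.2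
      omega
    · rw [cutb_iff]
      refine ⟨?_, ?_, ?_⟩
      · by_cases h : f u = true
        · exact ⟨u.1, u.2, (hw u).2 h⟩
        · refine ⟨v.1, v.2, (hw v).2 ?_⟩
          revert huv h
          cases f u <;> cases f v <;> simp
      · by_cases h : f u = true
        · refine ⟨v.1, v.2, fun h2 => ?_⟩
          rw [hw v] at h2
          exact huv (h.trans h2.symm)
        · exact ⟨u.1, u.2, fun h2 => h ((hw u).1 h2)⟩
      · intro a ha x hx y hy h1 h2 h3 h4
        have k1 := (adjb_iff I ⟨a, ha⟩ ⟨x, hx⟩).1 h1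
        have k2 := (adjb_iff I ⟨a, ha⟩ ⟨y, hy⟩).1 h2
        exact congrArg Subtype.val (hf _ _ _ k1 k2 (fun h => h3 ((key ⟨x, hx⟩ ⟨a, ha⟩).2 h))
          (fun h => h4 ((key ⟨y, hy⟩ ⟨a, ha⟩).2 h)))
  · rintro ⟨w, -, hw⟩
    rw [cutb_iff] at hw
    obtain ⟨⟨u, hu, hu2⟩, ⟨v, hv, hv2⟩, h⟩ := hw
    refine ⟨fun a => decide (a.1 ∈ w), ⟨⟨u, hu⟩, ⟨v, hv⟩, ?_⟩, ?_⟩
    · simp [hu2, hv2]
    · intro a x y h1 h2 h3 h4
      simp only [ne_eq, decide_eq_decide] at h3 h4
      exact Subtype.ext (h a.1 a.2 x.1 x.2 y.1 y.2 ((adjb_iff I a x).2 h1)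
        ((adjb_iff I a y).2 h2) h3 h4)

/-- Membership in `NP` of MATCHING CUT on `F`-subgraph-free graphs. -/
theorem inNPP_mc {W : Type} [Finite W] (F : SimpleGraph W) :
    InNPP (fun I : PG => F.Free (toGraph I) ∧ HasMatchingCut (toGraph I)) := by
  obtain ⟨d, hd, hF⟩ := free_decidable F
  refine inNPP_of (R := fun x : PG × List ℕ => d x.1 && cutb x.1 x.2)
    (Poly.and (hd.comp (f := fun x : PG × List ℕ => x.1) (by fun_prop)) cutb_poly)
    (Polynomial.X : Polynomial ℕ) fun I => ?_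
  rw [cut_iff, cut_iff_cert, hF]
  simp only [Bool.and_eq_true]
  constructor
  · rintro ⟨h1, w, hw, hc⟩
    exact ⟨w, hw, h1, hc⟩
  · rintro ⟨w, hw, h1, hc⟩
    exact ⟨h1, w, hw, hc⟩

end Pool.Agent.Q227.MC
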