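import Pool.Agent.Q227.MC.Csp
import Pool.Agent.Q227.MC.Free

/-!
# The reduction is computed in polynomial time
-/

set_option autoImplicit false

namespace Pool.Agent.Q227.MC

open Pool.Agent.NPC Pool.Agent.Q227 Pool.Agent.Q227.TF Pool.Agent.H679R2

/-- The reduction. -/
def red (φ : F3) : List ℕ × List (ℕ × ℕ) :=
  mkG (VL (nn φ) (cons φ)) (adj (nn φ) (cons φ))

theorem red_iso (φ : F3) : Nonempty (toGraph (red φ) ≃g GC (nn φ) (cons φ)) :=
  mkG_iso (VL_nodup _ _) _ (adj_symm _ _) (adj_irrefl _ _)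

theorem red_free {φ : F3} (hφ : Bounded3 φ) : S2222.Free (toGraph (red φ)) := by
  obtain ⟨e⟩ := red_iso φ
  rw [SimpleGraph.free_congr_right e]
  exact GC_free (cons_bdd hφ)

theorem red_iff {φ : F3} (hφ : Bounded3 φ) : SAT3 φ ↔ HasMatchingCut (toGraph (red φ)) := by
  obtain ⟨e⟩ := red_iso φ
  rw [cut_iff, cut_congr e, cut_iff_sol (cons_bdd hφ), sol_iff hφ]

theorem lenU : UPoly (fun φ : F3 => φ.length) := UPoly.length NPC.Poly.id

theorem nn_uPoly : UPoly (fun φ : F3 => nn φ) :=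
  UPoly.add (UPoly.add (UPoly.const 2) (UPoly.mul (UPoly.const 2) (UPoly.mul (UPoly.const 3) lenU)))
    lenU

theorem lc_poly : NPC.Poly lc := by
  have h1 : NPC.Poly (fun l : Lit ℕ => decide (l.1 = true)) := by fun_prop
  have h2 : NPC.Poly (fun l : Lit ℕ => (if l.1 = true then 0 else 1 : ℕ)) :=
    NPC.Poly.ite h1 (NPC.Poly.const 0) (NPC.Poly.const 1)
  unfold lc
  fun_prop

theorem cons_poly : NPC.Poly cons := by
  have h1 : NPC.Poly (fun φ : F3 => List.range (nn φ)) := nn_uPoly.range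
  have h2 : NPC.Poly (fun φ : F3 => List.range (3 * φ.length)) :=
    (UPoly.mul (UPoly.const 3) lenU).range
  have h3 := lc_poly
  unfold cons
  fun_prop

theorem VL_poly : NPC.Poly (fun φ : F3 => VL (nn φ) (cons φ)) := by
  have hc : UPoly (fun φ : F3 => (cons φ).length) := UPoly.length cons_poly
  have h1 : NPC.Poly (fun φ : F3 => List.range (nn φ + (cons φ).length)) :=
    (UPoly.add nn_uPoly hc).range
  have h2 : NPC.Poly (fun φ : F3 => List.range (24 * (cons φ).length + 4)) :=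
    (UPoly.add (UPoly.mul (UPoly.const 24) hc) (UPoly.const 4)).range
  unfold VL
  fun_prop

theorem nn_poly : NPC.Poly nn := by
  unfold nn
  fun_prop

theorem outL_poly : NPC.Poly (fun φ : F3 => outL (nn φ) (cons φ)) := by
  have h1 := nn_poly
  have h2 := cons_poly
  unfold outL
  fun_prop

theorem inn_poly : NPC.Poly (fun p : Cd × Cd => inn p.1 p.2) := by
  unfold inn
  fun_prop

theorem adj_poly : NPC.Poly (fun p : F3 × Cd × Cd => adj (nn p.1) (cons p.1) p.2.1 p.2.2) := by
  have h1 := outL_poly.comp (f := fun p : F3 × Cd × Cd => p.1) (by fun_prop)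
  have h2 := inn_poly.comp (f := fun p : F3 × Cd × Cd => (p.2.1, p.2.2)) (by fun_prop)
  have h3 := inn_poly.comp (f := fun p : F3 × Cd × Cd => (p.2.2, p.2.1)) (by fun_prop)
  unfold adj
  refine NPC.Poly.or (NPC.Poly.or h2 h3) (NPC.Poly.or ?_ ?_)
  · exact NPC.Poly.dec_mem (by fun_prop) h1
  · exact NPC.Poly.dec_mem (by fun_prop) h1

theorem red_poly : NPC.Poly red :=
  mkG_poly (adj := fun φ => adj (nn φ) (cons φ)) VL_poly adj_poly

end Pool.Agent.Q227.MC
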